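import Pool.Agent.helper3.AP.SpecG

/-!
# AP, row GPA: primitive principal ideals of one field
-/

set_option autoImplicit false

namespace Pool.Agent.AP

open Finset NumberField Pool.Agent.helper3.FT Pool.Agent.helper47.RA Pool.Agent.T5

theorem GPA_one (K : Type) [Field K] [NumberField K] (Q : QF K) (N Y : ℝ) (hN : 1 ≤ N) (hY : 2 ≤ Y)
    (hND : N / 2 < -(Q.D : ℝ)) (hD : Q.D < 0) (a : Ideal (𝓞 K)) (ha : a ∈ IPr K Y) :
    ∃ X v u : ℤ, a = Ideal.span {(u : 𝓞 K) + v * Q.ω} ∧ X = 2 * u + Q.t * v ∧ |X| ≤ ⌊2 * √Y⌋ ∧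
      |v| ≤ ⌊√(8 * Y / N)⌋ ∧ v ≠ 0 := by
  obtain ⟨hne, hprim, hpr, hlo, hhi⟩ := ha
  obtain ⟨α, hα⟩ := hpr.principal
  have hα' : a = Ideal.span {α} := hα
  obtain ⟨u, hu⟩ := Q.exists_re α
  generalize Q.Y α = v at hu
  have hn := Q.norm_form u v
  have h4 : 4 * (u ^ 2 + Q.t * u * v - Q.k * v ^ 2) = (2 * u + Q.t * v) ^ 2 - Q.D * v ^ 2 := by
    have h1 := Q.t_sq
    have h2 := Q.hk
    rw [h2]
    linear_combination (-v ^ 2) * h1
  have habs := Q.absNorm_eq (u + v * Q.ω) _ hn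
  rw [← hu, ← hα'] at habs
  have hpos : 0 ≤ u ^ 2 + Q.t * u * v - Q.k * v ^ 2 := by
    have : 0 ≤ -Q.D * v ^ 2 := mul_nonneg (by linarith) (sq_nonneg _)
    nlinarith [sq_nonneg (2 * u + Q.t * v)]
  rw [abs_of_nonneg hpos] at habs
  have habsR : (Ideal.absNorm a : ℝ) = ((u ^ 2 + Q.t * u * v - Q.k * v ^ 2 : ℤ) : ℝ) := by
    rw [← habs]
    push_cast
    rfl
  have h4R : 4 * (Ideal.absNorm a : ℝ) = ((2 * u + Q.t * v : ℤ) : ℝ) ^ 2 - (Q.D : ℝ) * (v : ℝ) ^ 2 := by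
    rw [habsR]
    exact_mod_cast h4
  have hDv : 0 ≤ -(Q.D : ℝ) * (v : ℝ) ^ 2 := mul_nonneg (by linarith) (sq_nonneg _)
  refine ⟨2 * u + Q.t * v, v, u, by rw [hα', hu], rfl, ?_, ?_, ?_⟩
  · rw [Int.le_floor]
    have h5 : ((2 * u + Q.t * v : ℤ) : ℝ) ^ 2 ≤ 4 * Y := by nlinarith
    have h6 : |((2 * u + Q.t * v : ℤ) : ℝ)| ≤ 2 * √Y := by
      have e : 2 * √Y = √(4 * Y) := by
        rw [Real.sqrt_mul (by norm_num), show (4 : ℝ) = 2 ^ 2 by norm_num, Real.sqrt_sq (by norm_num)]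
      rw [e]
      exact Real.abs_le_sqrt h5
    rw [Int.cast_abs]
    exact h6
  · rw [Int.le_floor, Int.cast_abs]
    apply Real.abs_le_sqrt
    rw [le_div_iff₀ (by linarith)]
    have h5 : -(Q.D : ℝ) * (v : ℝ) ^ 2 ≤ 4 * Y := by
      nlinarith [sq_nonneg ((2 * u + Q.t * v : ℤ) : ℝ)]
    have h6 : N / 2 * (v : ℝ) ^ 2 ≤ -(Q.D : ℝ) * (v : ℝ) ^ 2 := mul_le_mul_of_nonneg_right hND.le (sq_nonneg _)
    linarith
  · intro hv0
    subst hv0
    have hau : a = Ideal.span {(u : 𝓞 K)} := by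
      rw [hα', hu]
      simp
    have hu1 : u.natAbs = 1 := by
      by_contra hcon
      obtain ⟨q, hq, hqu⟩ := Nat.exists_prime_and_dvd hcon
      refine hprim q hq ?_
      rw [hau, Ideal.dvd_span_singleton, Ideal.mem_span_singleton]
      have h7 : (q : ℤ) ∣ u := Int.natCast_dvd.mpr hqu
      have h8 := map_dvd (Int.castRingHom (𝓞 K)) h7
      simpa using h8
    have hu2 : u ^ 2 = 1 := by
      rw [← Int.natAbs_sq, hu1]
      rfl
    have h9 : (Ideal.absNorm a : ℝ) = 1 := by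
      rw [habsR]
      have : u ^ 2 + Q.t * u * 0 - Q.k * 0 ^ 2 = 1 := by rw [hu2]; ring
      rw [this]
      norm_num
    rw [h9] at hlo
    linarith

theorem GPA : GPA_stmt := by
  intro K _ _ Q N Y hN hY hND hD
  have h := GPA_one K Q N Y hN hY hND hD
  choose! X v u ha hX hXb hvb hv0 using h
  set A : ℤ := ⌊2 * √Y⌋ with hA
  set B : ℤ := ⌊√(8 * Y / N)⌋ with hB
  have hA0 : 0 ≤ A := Int.floor_nonneg.mpr (by positivity)
  have hB0 : 0 ≤ B := Int.floor_nonneg.mpr (by positivity)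
  set T : Finset (ℤ × ℤ) := Icc (-A) A ×ˢ (Icc (-B) B).erase 0 with hT
  have hmaps : ∀ a ∈ IPr K Y, (X a, v a) ∈ (T : Set (ℤ × ℤ)) := by
    intro a haI
    rw [Finset.mem_coe, hT, Finset.mem_product, Finset.mem_erase, Finset.mem_Icc, Finset.mem_Icc]
    exact ⟨abs_le.mp (hXb a haI), hv0 a haI, abs_le.mp (hvb a haI)⟩
  have hinj : Set.InjOn (fun a => (X a, v a)) (IPr K Y) := by
    intro a haI b hbI hab
    rw [Prod.mk.injEq] at hab
    obtain ⟨h1, h2⟩ := hab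
    have h3 := hX a haI
    have h4 := hX b hbI
    rw [h1, h2] at h3
    have h5 : u a = u b := by
      have : 2 * u a = 2 * u b := by linarith
      omega
    rw [ha a haI, ha b hbI, h2, h5]
  refine ⟨Set.Finite.of_injOn hmaps hinj T.finite_toSet, ?_⟩
  have h1 := Set.ncard_le_ncard_of_injOn _ hmaps hinj T.finite_toSet
  rw [Set.ncard_coe_finset, hT, Finset.card_product, Finset.card_erase_of_mem (by rw [Finset.mem_Icc]; omega),
    Int.card_Icc, Int.card_Icc] at h1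
  have e1 : (((A + 1 - -A).toNat : ℕ) : ℝ) = 2 * (A : ℝ) + 1 := by
    have : (((A + 1 - -A).toNat : ℕ) : ℤ) = 2 * A + 1 := by omega
    exact_mod_cast congrArg (Int.cast : ℤ → ℝ) this
  have e2 : (((B + 1 - -B).toNat - 1 : ℕ) : ℝ) = 2 * (B : ℝ) := by
    have : (((B + 1 - -B).toNat - 1 : ℕ) : ℤ) = 2 * B := by omega
    exact_mod_cast congrArg (Int.cast : ℤ → ℝ) this
  have h2 : ((IPr K Y).ncard : ℝ) ≤ (2 * (A : ℝ) + 1) * (2 * (B : ℝ)) := by
    rw [← e1, ← e2]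
    exact_mod_cast h1
  have f1 : (A : ℝ) ≤ 2 * √Y := Int.floor_le _
  have f2 : (B : ℝ) ≤ √(8 * Y / N) := Int.floor_le _
  have hA0R : (0 : ℝ) ≤ A := by exact_mod_cast hA0
  have hB0R : (0 : ℝ) ≤ B := by exact_mod_cast hB0
  calc ((IPr K Y).ncard : ℝ) ≤ (2 * (A : ℝ) + 1) * (2 * (B : ℝ)) := h2
    _ ≤ (4 * √Y + 1) * (2 * √(8 * Y / N)) := by
        apply mul_le_mul (by linarith) (by linarith) (by positivity) (by positivity)
    _ = 2 * √(8 * Y / N) * (4 * √Y + 1) := by ring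

end Pool.Agent.AP
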